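import Pool.Agent.H73.TS.TargetsB

/-!
Module `HAQ` of the board ts_modules (adapted from `HAD`, `Pool/Agent/H74/TS/HAD.lean`).
-/

open MeasureTheory Set Metric
open scoped ENNReal

namespace Pool.Agent.H66.TS

open Pool.Agent.H73.TS

/-- Hadamard inequality for rows of norm at most one -/
theorem det_le_one {d : ℕ} (A : Matrix (Fin d) (Fin d) ℝ)
    (h : ∀ i, ‖(WithLp.toLp 2 (A i) : E d)‖ ≤ 1) : |A.det| ≤ 1 := by
  haveI : Fact (Module.finrank ℝ (E d) = d) := ⟨by simp⟩
  set b : OrthonormalBasis (Fin d) ℝ (E d) := EuclideanSpace.basisFun (Fin d) ℝ with hb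
  set o := b.toBasis.orientation with ho
  have h1 := o.abs_volumeForm_apply_le (fun i => (WithLp.toLp 2 (A i) : E d))
  rw [o.volumeForm_robust' b] at h1
  have h2 : b.toBasis.det (fun i => (WithLp.toLp 2 (A i) : E d)) = A.det := by
    rw [Module.Basis.det_apply, ← Matrix.det_transpose A]
    rfl
  rw [h2] at h1
  exact le_trans h1 (Finset.prod_le_one (fun i _ => norm_nonneg _) (fun i _ => h i))

theorem haq (hPAQ : T_PAQ) : T_HAQ := by
  intro d w w' v v' K hw hw' hwide hsub
  obtain ⟨L, hLw, hLvol, hLE⟩ := hPAQ d w v hw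
  obtain ⟨L', hLw', hLvol', -⟩ := hPAQ d w' v' hw'
  set M : E d →ₗ[ℝ] E d := (L' : E d →ₗ[ℝ] E d) ∘ₗ (L.symm : E d →ₗ[ℝ] E d) with hM
  set A : Matrix (Fin d) (Fin d) ℝ := fun i j => (M (EuclideanSpace.single j (1 : ℝ))) i with hA
  have hMb : ∀ (b : E d) (i : Fin d), (M b) i = ∑ j, A i j * b j := by
    intro b i
    have h1 : b = ∑ j, b j • EuclideanSpace.single j (1 : ℝ) := by
      ext k
      simp [Pi.single_apply]
    conv_lhs => rw [h1]
    rw [map_sum]
    simp only [map_smul]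
    rw [WithLp.ofLp_sum, Finset.sum_apply]
    refine Finset.sum_congr rfl fun j _ => ?_
    simp only [hA, PiLp.smul_apply, smul_eq_mul]
    ring
  have hrow : ∀ i, ‖(WithLp.toLp 2 (A i) : E d)‖ ≤ 1 := by
    intro i
    set φ : E d →L[ℝ] ℝ := (EuclideanSpace.proj i).comp (L' : E d →L[ℝ] E d) with hφ
    have hφa : ∀ x, φ x = (L' x) i := fun x => rfl
    -- the values on the large parallelotope
    have hval : ∀ x ∈ K, φ v' ≤ φ x ∧ φ x ≤ φ v' + 1 := by
      intro x hx
      obtain ⟨a, ha, rfl⟩ := hsub hx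
      have h1 : φ (v' + ∑ j, a j • w' j) = φ v' + a i := by
        rw [map_add]
        congr 1
        rw [hφa, map_sum]
        simp_rw [map_smul, hLw']
        simp [Pi.single_apply]
      rw [h1]
      have := ha i
      exact ⟨by linarith [this.1], by linarith [this.2]⟩
    obtain ⟨p, hp, q, hq, hpq⟩ := hLE φ
    obtain ⟨x, hx, y, hy, hxy⟩ := hwide φ p hp q hq
    have hn : ‖φ.comp (L.symm : E d →L[ℝ] E d)‖ ≤ 1 := by
      have h1 := (hval x hx).2
      have h2 := (hval y hy).1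
      linarith
    set r : E d := WithLp.toLp 2 (A i) with hr
    by_cases h0 : ‖r‖ = 0
    · rw [h0]; norm_num
    have hpos : 0 < ‖r‖ := lt_of_le_of_ne (norm_nonneg _) (Ne.symm h0)
    have h1 : (φ.comp (L.symm : E d →L[ℝ] E d)) r = ‖r‖ ^ 2 := by
      have h2 : (φ.comp (L.symm : E d →L[ℝ] E d)) r = (M r) i := rfl
      rw [h2, hMb, EuclideanSpace.norm_sq_eq]
      refine Finset.sum_congr rfl fun j _ => ?_
      have h3 : r j = A i j := rfl
      rw [h3, Real.norm_eq_abs, sq_abs]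
      ring
    have h4 := (φ.comp (L.symm : E d →L[ℝ] E d)).le_opNorm r
    rw [h1, Real.norm_of_nonneg (by positivity)] at h4
    have h5 : ‖φ.comp (L.symm : E d →L[ℝ] E d)‖ * ‖r‖ ≤ 1 * ‖r‖ :=
      mul_le_mul_of_nonneg_right hn hpos.le
    nlinarith
  have hdetA : |A.det| ≤ 1 := det_le_one A hrow
  have hdetM : LinearMap.det M = A.det := by
    rw [← LinearMap.det_toMatrix (EuclideanSpace.basisFun (Fin d) ℝ).toBasis]
    congr 1
  have hcomp : LinearMap.det M =
      LinearMap.det (L' : E d →ₗ[ℝ] E d) * LinearMap.det (L.symm : E d →ₗ[ℝ] E d) := by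
    rw [hM, LinearMap.det_comp]
  have hinv : LinearMap.det (L.symm : E d →ₗ[ℝ] E d) * LinearMap.det (L : E d →ₗ[ℝ] E d) = 1 := by
    rw [← LinearMap.det_comp]
    have : (L.symm : E d →ₗ[ℝ] E d) ∘ₗ (L : E d →ₗ[ℝ] E d) = LinearMap.id := by
      ext x
      simp
    rw [this, LinearMap.det_id]
  have hle : |LinearMap.det (L' : E d →ₗ[ℝ] E d)| ≤ |LinearMap.det (L : E d →ₗ[ℝ] E d)| := by
    have h1 : LinearMap.det (L' : E d →ₗ[ℝ] E d) =
        LinearMap.det M * LinearMap.det (L : E d →ₗ[ℝ] E d) := by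
      rw [hcomp, mul_assoc, hinv, mul_one]
    rw [h1, abs_mul, hdetM]
    exact mul_le_of_le_one_left (abs_nonneg _) hdetA
  calc volume (Par w v)
      = volume (Par w v) * (volume (Par w' v') *
          ENNReal.ofReal |LinearMap.det (L' : E d →ₗ[ℝ] E d)|) := by rw [hLvol', mul_one]
    _ ≤ volume (Par w v) * (volume (Par w' v') *
          ENNReal.ofReal |LinearMap.det (L : E d →ₗ[ℝ] E d)|) := by
        gcongr
    _ = volume (Par w' v') * (volume (Par w v) *
          ENNReal.ofReal |LinearMap.det (L : E d →ₗ[ℝ] E d)|) := by ring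
    _ = volume (Par w' v') := by rw [hLvol, mul_one]

end Pool.Agent.H66.TS
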