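import Pool.Agent.H73.TS.Targets

/-! `St c` for `π c^2 ≤ 2`. -/

open MeasureTheory Set Metric Filter
open scoped ENNReal Topology

namespace Pool.Agent.H66.TS

open Pool.Agent.H73.TS

theorem er_le {c : ℝ} (hc : 0 ≤ c) : er c ≤ c := by
  unfold er
  have h := intervalIntegral.norm_integral_le_of_norm_le_const (a := (0 : ℝ)) (b := c) (C := 1)
    (f := fun s : ℝ => Real.exp (-(Real.pi * s ^ 2))) (by
      intro x _
      rw [Real.norm_eq_abs, abs_of_pos (Real.exp_pos _)]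
      apply Real.exp_le_one_iff.2
      have := Real.pi_pos
      nlinarith [sq_nonneg x, mul_nonneg this.le (sq_nonneg x)])
  rw [sub_zero, abs_of_nonneg hc, one_mul] at h
  exact (le_abs_self _).trans h

theorem ep_nonneg {t : ℝ} (h0 : 0 ≤ t) (h2 : t ≤ 2) : 0 ≤ ep t := by
  have e : ep t = t * (1 - t / 3) + t ^ 3 * (1 / 10 - t / 42) + t ^ 5 * (1 / 216 - t / 1320) +
      t ^ 7 * (1 / 9360 - t / 75600) := by
    unfold ep
    ring
  rw [e]
  have h3 := pow_nonneg h0 3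
  have h5 := pow_nonneg h0 5
  have h7 := pow_nonneg h0 7
  have a1 : 0 ≤ t * (1 - t / 3) := mul_nonneg h0 (by linarith)
  have a2 : 0 ≤ t ^ 3 * (1 / 10 - t / 42) := mul_nonneg h3 (by linarith)
  have a3 : 0 ≤ t ^ 5 * (1 / 216 - t / 1320) := mul_nonneg h5 (by linarith)
  have a4 : 0 ≤ t ^ 7 * (1 / 9360 - t / 75600) := mul_nonneg h7 (by linarith)
  linarith

theorem sp_nonneg {t : ℝ} (h0 : 0 ≤ t) (h2 : t ≤ 2) : 0 ≤ sp t := by
  have e : sp t = t * (1 - t / 6) + t ^ 3 * (1 / 30 - t / 168) + t ^ 5 * (1 / 1080 - t / 7920) +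
      t ^ 7 * (1 / 65520 - t / 604800) := by
    unfold sp
    ring
  rw [e]
  have h3 := pow_nonneg h0 3
  have h5 := pow_nonneg h0 5
  have h7 := pow_nonneg h0 7
  have a1 : 0 ≤ t * (1 - t / 6) := mul_nonneg h0 (by linarith)
  have a2 : 0 ≤ t ^ 3 * (1 / 30 - t / 168) := mul_nonneg h3 (by linarith)
  have a3 : 0 ≤ t ^ 5 * (1 / 1080 - t / 7920) := mul_nonneg h5 (by linarith)
  have a4 : 0 ≤ t ^ 7 * (1 / 65520 - t / 604800) := mul_nonneg h7 (by linarith)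
  linarith

theorem ss (hPO : T_PO) (hES : T_ES) (hQB : T_QB) : T_SS := by
  intro c hc h2
  obtain ⟨-, hodd, -, -, -, hq, -, -, -⟩ := hQB
  obtain ⟨hE, hS⟩ := hES c hc
  have hpi := Real.pi_pos
  have hpi4 := Real.pi_lt_d4
  have hpi3 := Real.pi_gt_three
  obtain ⟨t, ht⟩ : ∃ t, t = Real.pi * c ^ 2 := ⟨_, rfl⟩
  obtain ⟨s, hs⟩ : ∃ s, s = (qf c + qf (-c)) / 2 - 1 := ⟨_, rfl⟩
  obtain ⟨p, hp⟩ : ∃ p, p = Real.pi * c := ⟨_, rfl⟩
  obtain ⟨e, he⟩ : ∃ e, e = er c := ⟨_, rfl⟩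
  have ht0 : 0 ≤ t := by rw [ht]; positivity
  rw [← ht] at h2 hE hS
  rw [← hs] at hS
  rw [← hp, ← he] at hE
  have hqc : qf c = 1 + s + p := by
    have := hq c
    rw [hs, hp]
    linarith
  have hqm : qf (-c) = 1 + s - p := by
    have := hq c
    rw [hs, hp]
    linarith
  have hel : e ≤ c := by rw [he]; exact er_le hc
  have hpe : p * e ≤ t := by
    have h1 : p * e ≤ p * c := mul_le_mul_of_nonneg_left hel (by rw [hp]; positivity)
    have h3 : p * c = t := by rw [hp, ht]; ring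
    linarith
  have hs1 : s ≤ 2 * t := by
    have h1 : s = Real.exp (-(Real.pi * c ^ 2)) + 2 * (p * e) - 1 := by
      rw [hs, hp, he]
      unfold qf
      rw [hodd c, neg_sq]
      ring
    have h3 : Real.exp (-(Real.pi * c ^ 2)) ≤ 1 := by
      apply Real.exp_le_one_iff.2
      have := mul_nonneg hpi.le (sq_nonneg c)
      linarith
    linarith
  have hep := ep_nonneg ht0 h2
  have hsp := sp_nonneg ht0 h2
  have hpo := hPO t ht0 h2
  obtain ⟨e0, he0⟩ : ∃ e0, e0 = ep t := ⟨_, rfl⟩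
  obtain ⟨s0, hs0⟩ : ∃ s0, s0 = sp t := ⟨_, rfl⟩
  rw [← he0] at hep hpo hE
  rw [← hs0] at hsp hpo hS
  have hpp : p ^ 2 = Real.pi * t := by rw [hp, ht]; ring
  obtain ⟨q, hqd⟩ : ∃ q, q = Real.pi * t := ⟨_, rfl⟩
  have hq0 : 0 ≤ q := by rw [hqd]; positivity
  have hq1 : q ≤ 3.1416 * t := by
    rw [hqd]
    exact mul_le_mul_of_nonneg_right hpi4.le ht0
  have hq2 : q ≤ 6.2832 := by
    refine hq1.trans ?_
    linarith
  -- step 3
  have k3 : 0 ≤ 2 * e0 * (1 + (s0 ^ 2 - q) / 15) - (1 - s0 / 15) * (q - s0 - s0 ^ 2) + q / 15 := by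
    have h1 : 0 ≤ (3.1416 * t - q) * (2 * e0 / 15 + (1 - s0 / 15) - 1 / 15) := by
      apply mul_nonneg (by linarith)
      linarith
    nlinarith [h1, hpo]
  -- step 2
  have k2 : 0 ≤ 2 * e0 * (1 + (s ^ 2 - q) / 15) - (1 - s / 15) * (q - s - s ^ 2) + q / 15 := by
    have hσ : s + s0 ≤ 8 := by linarith
    have hσ0 : 0 ≤ s + s0 := by linarith
    have hss : 0 ≤ s * s0 := mul_nonneg (by linarith) hsp
    have h4 : 0 ≤ (s + s0) * (14 - (s + s0)) := mul_nonneg hσ0 (by linarith)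
    have h5 : 0 ≤ e0 * (s + s0) := mul_nonneg hep hσ0
    have h1 : 0 ≤ (s - s0) * (2 * e0 * (s + s0) / 15 + 1 + (s + s0) +
        (q - (s + s0) - (s ^ 2 + s * s0 + s0 ^ 2)) / 15) := by
      apply mul_nonneg (by linarith)
      have h6 : 1 + (s + s0) * (14 - (s + s0)) / 15 ≤ 2 * e0 * (s + s0) / 15 + 1 + (s + s0) +
        (q - (s + s0) - (s ^ 2 + s * s0 + s0 ^ 2)) / 15 := by
        have : 2 * e0 * (s + s0) / 15 + 1 + (s + s0) +
          (q - (s + s0) - (s ^ 2 + s * s0 + s0 ^ 2)) / 15 -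
          (1 + (s + s0) * (14 - (s + s0)) / 15) = (2 * (e0 * (s + s0)) + q + s * s0) / 15 := by
          ring
        have h7 : 0 ≤ (2 * (e0 * (s + s0)) + q + s * s0) / 15 := by positivity
        linarith
      linarith
    have h8 : (2 * e0 * (1 + (s ^ 2 - q) / 15) - (1 - s / 15) * (q - s - s ^ 2) + q / 15) -
      (2 * e0 * (1 + (s0 ^ 2 - q) / 15) - (1 - s0 / 15) * (q - s0 - s0 ^ 2) + q / 15) =
      (s - s0) * (2 * e0 * (s + s0) / 15 + 1 + (s + s0) +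
        (q - (s + s0) - (s ^ 2 + s * s0 + s0 ^ 2)) / 15) := by
      ring
    linarith
  -- step 1
  have k1 : 0 ≤ 2 * (p * e) * (1 + (s ^ 2 - q) / 15) - (1 - s / 15) * (q - s - s ^ 2) +
      q / 15 := by
    have h1 : 0 ≤ (p * e - e0) * (2 * (1 + (s ^ 2 - q) / 15)) := by
      apply mul_nonneg (by linarith)
      have := sq_nonneg s
      linarith
    linarith [h1, k2]
  unfold St
  rw [hqc, hqm, ← he]
  have h9 : (1 / 2 + e) * (1 + s + p - 1) * (1 + s - p) * (1 + (1 - (1 + s - p)) / 15) -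
      (1 / 2 - e) * (1 - (1 + s - p)) * (1 + s + p) * (1 - (1 + s + p - 1) / 15) =
      2 * (p * e) * (1 + (s ^ 2 - p ^ 2) / 15) - (1 - s / 15) * (p ^ 2 - s - s ^ 2) +
      p ^ 2 / 15 := by
    ring
  rw [hpp, ← hqd] at h9
  linarith

end Pool.Agent.H66.TS
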